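import Pool.Agent.H36.CRev

open Pool.Agent.H38.NP Pool.Agent.H36.Par Pool.Agent.H36.CRev

theorem Pool.Agent.Results.MP_3f5cd8_lc.FPT.result :
    FPTOn (fun _ : GK => True) (fun p => CrLe (graphOf p.1 p.2.1) p.2.2) kOf ∧
      ∀ (n k : ℕ) (G : SimpleGraph (Fin n)), CrLe G k → n ≤ k :=
  ⟨fpt, fun n k G h => by simpa using lower h⟩
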